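import Pool.Agent.Q97.RL.R12
import Pool.Agent.Q286.XG.EK2
import Pool.Agent.Q240.OW.K3

/-!
# MP_fb225e_nt: the explicit formula of an elliptic curve over a number field has essentially one positive solution

Let `E` be an elliptic curve over a number field `K` of degree `d`, for which the properties conjectured by Hasse and Weil hold
(`Λ(E/K, s)` entire, of finite order, `Λ(s) = ± Λ(2 - s)`), with conductor `A` (of the L-function).  For `a > 0` let `W` be Weil's quadratic form
of `E/K` on the functions on `[-a, a]`, written through the conductor, the archimedean places and the traces of Frobenius at the places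
with `Nv^k ≤ P = exp (2 a)`; no zero of the L-function enters.  With `M f s = ∫ f(x) exp ((s - 1) x) dx` the explicit formula reads
`W f = ∑ m(ρ) M f ρ conj (M f (2 - conj ρ))`, so under the Riemann hypothesis for `E/K` the counting measure of the ordinates of the zeros is a positive
solution `μ` of the equation `W f = ∫ |M f (1 + i t)|² dμ(t)`, for all `a` and `f`; and by Weil's criterion the Riemann hypothesis for `E/K` holds if and only if
positive solutions exist for all `a`.

Fix now `a` and consider the equation only for the smooth test functions in `(-a, a)`, or only for the trigonometric polynomials of degree at most `n` on `[-a, a]`.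
It has many positive solutions.  The theorem says, without any hypothesis on the zeros, that all of them, and all measures which satisfy the equation up to factors
`x` and `y`, agree with the counting of the zeros (with multiplicity, and including zeros off the critical line) up to the height
`4 π cos u P ^ (1 / (2 d)) A ^ (-1 / (2 d))`, up to `exp (- b P ^ (1 / (2 d)))`, for every `b < 4 π d A ^ (-1 / (2 d)) (sin u - u cos u)`, `0 < u < π / 2`.  So positivity and
the numbers of points over the residue fields with at most `P` elements determine all zeros up to the height `T` if `A (T / 4 π) ^ (2 d)` is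
smaller than `P` (for comparison: `A (T / 2 π) ^ (2 d)` is the analytic conductor); in particular, under the Riemann hypothesis for `E/K`, the mass near `0` is nearly the analytic rank.  The same holds at all smaller scales
`k a ≤ h ≤ P ^ (1 / (2 d))`, where trigonometric polynomials of degree `k a h` suffice; and a degree `n` never determines anything beyond the height `π (n + 2) / a`.
-/

set_option autoImplicit false

open Complex NumberField IsDedekindDomain MeasureTheory Filter Topology Set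
open scoped ComplexConjugate

namespace Pool.Agent.Results.MP_fb225e_nt.RigidityOfTheExplicitFormula

/-! ### Hasse-Weil L-functions of elliptic curves over number fields -/

/-- `W v` is, for every finite place `v`, an integral model of `E` with discriminant minimal at
`v`. -/
def MinimalModels {K : Type} [Field K] [NumberField K] (E : WeierstrassCurve K)
    (W : HeightOneSpectrum (𝓞 K) → WeierstrassCurve (𝓞 K)) : Prop :=
  ∀ v : HeightOneSpectrum (𝓞 K),
    (∃ C : WeierstrassCurve.VariableChange K, C • (W v).map (algebraMap (𝓞 K) K) = E) ∧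
    ∀ W' : WeierstrassCurve (𝓞 K),
      (∃ C : WeierstrassCurve.VariableChange K, C • W'.map (algebraMap (𝓞 K) K) = E) →
      ∀ n : ℕ, (W v).Δ ∈ v.asIdeal ^ n → W'.Δ ∈ v.asIdeal ^ n

open Classical in
/-- The Euler factor at `v`, `(1 - a_v Nv^{-s} + Nv^{1-2s})⁻¹` if the reduction at `v` is good and
`(1 - a_v Nv^{-s})⁻¹` if it is bad, where `a_v` is `Nv` minus the number of affine points of the
reduction of `W v`. -/
noncomputable def localFactor {K : Type} [Field K] [NumberField K]
    (W : HeightOneSpectrum (𝓞 K) → WeierstrassCurve (𝓞 K)) (v : HeightOneSpectrum (𝓞 K))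
    (s : ℂ) : ℂ :=
  (1 - ((Ideal.absNorm v.asIdeal : ℂ)
        - (Nat.card {xy : (𝓞 K ⧸ v.asIdeal) × (𝓞 K ⧸ v.asIdeal) //
            ((W v).map (Ideal.Quotient.mk v.asIdeal)).toAffine.Equation xy.1 xy.2} : ℂ))
        * (Ideal.absNorm v.asIdeal : ℂ) ^ (-s)
    + (if (W v).Δ ∈ v.asIdeal then 0 else (Ideal.absNorm v.asIdeal : ℂ))
        * (Ideal.absNorm v.asIdeal : ℂ) ^ (-2 * s))⁻¹

/-- The `L`-function `L(E/K, s)` in the half-plane of convergence, as the Euler product over all
finite places. -/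
noncomputable def LSeries {K : Type} [Field K] [NumberField K]
    (W : HeightOneSpectrum (𝓞 K) → WeierstrassCurve (𝓞 K)) (s : ℂ) : ℂ :=
  ∏' v : HeightOneSpectrum (𝓞 K), localFactor W v s

/-- `Λ` is the completed L-function `A^(s/2) ((2π)^(-s) Γ(s))^[K : ℚ] L(E/K, s)`, and it has the
properties conjectured by Hasse and Weil: it is entire, of finite order, and `Λ(s) = ± Λ(2 - s)`. -/
structure HasseWeil {K : Type} [Field K] [NumberField K]
    (W : HeightOneSpectrum (𝓞 K) → WeierstrassCurve (𝓞 K)) (A : ℝ) (Λ : ℂ → ℂ) : Prop where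
  one_le : 1 ≤ A
  entire : Differentiable ℂ Λ
  order : ∃ c ρ : ℝ, ∀ s : ℂ, ‖Λ s‖ ≤ Real.exp (c * (1 + ‖s‖) ^ ρ)
  fe : ∃ w : ℝ, (w = 1 ∨ w = -1) ∧ ∀ s : ℂ, Λ s = w * Λ (2 - s)
  eq : ∃ σ : ℝ, ∀ s : ℂ, σ ≤ s.re → Λ s = (A : ℂ) ^ (s / 2) *
    ((2 * (Real.pi : ℂ)) ^ (-s) * Gamma s) ^ Module.finrank ℚ K * LSeries W s

/-- An elliptic curve `E` over a number field `K` (for the problem: defined over `ℚ`), with minimal models, the
conductor `A` of its L-function and the completed L-function `Λ`, with the properties conjectured by Hasse and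
Weil. -/
structure Curve where
  /-- the number field -/
  K : Type
  [field : Field K]
  [numberField : NumberField K]
  /-- the elliptic curve -/
  E : WeierstrassCurve K
  [elliptic : E.IsElliptic]
  /-- minimal models -/
  W : HeightOneSpectrum (𝓞 K) → WeierstrassCurve (𝓞 K)
  minimal : MinimalModels E W
  /-- the conductor -/
  A : ℝ
  /-- the completed L-function -/
  Λ : ℂ → ℂ
  hasseWeil : HasseWeil W A Λ

attribute [instance] Curve.field Curve.numberField Curve.elliptic

/-- The degree of the number field. -/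
noncomputable def Curve.deg (X : Curve) : ℕ := Module.finrank ℚ X.K

/-- The norm `Nv` of a finite place. -/
noncomputable def nrm {K : Type} [Field K] [NumberField K] (v : HeightOneSpectrum (𝓞 K)) : ℕ := Ideal.absNorm v.asIdeal

/-- The coefficient `a_v`: `Nv` minus the number of affine points of the reduction of the minimal model at `v`. -/
noncomputable def trace (X : Curve) (v : HeightOneSpectrum (𝓞 X.K)) : ℂ :=
  (nrm v : ℂ) - (Nat.card {xy : (𝓞 X.K ⧸ v.asIdeal) × (𝓞 X.K ⧸ v.asIdeal) //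
    ((X.W v).map (Ideal.Quotient.mk v.asIdeal)).toAffine.Equation xy.1 xy.2} : ℂ)

open Classical in
/-- `Nv` if the reduction at `v` is good and `0` if it is bad. -/
noncomputable def good (X : Curve) (v : HeightOneSpectrum (𝓞 X.K)) : ℂ := if (X.W v).Δ ∈ v.asIdeal then 0 else (nrm v : ℂ)

/-- The traces of the powers of Frobenius at `v`: `t_k = α^k + β^k` (`k ≥ 1`), where
`1 - a_v T + Nv T² = (1 - α T)(1 - β T)` if the reduction is good and `1 - a_v T = 1 - α T`, `β = 0` if it is bad. -/
noncomputable def frob (X : Curve) (v : HeightOneSpectrum (𝓞 X.K)) : ℕ → ℂ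
  | 0 => 2
  | 1 => trace X v
  | k + 2 => trace X v * frob X v (k + 1) - good X v * frob X v k

/-- The Riemann hypothesis for `E/K`: all zeros of `Λ(E/K, s)` have real part `1`. -/
def RiemannHypothesis (X : Curve) : Prop := ∀ s : ℂ, X.Λ s = 0 → s.re = 1

/-! ### The quadratic form -/

/-- The trigonometric polynomials of degree at most `n` on `[-a, a]`, extended by `0`. -/
def Trig (a : ℝ) (n : ℕ) (f : ℝ → ℂ) : Prop := ∃ c : ℤ → ℂ, ∀ x : ℝ,
  f x = if |x| ≤ a then ∑ k ∈ Finset.Icc (-(n : ℤ)) n, c k * cexp ((Real.pi * k * x / a : ℝ) * I) else 0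

/-- The Mellin transform of `f` in the logarithmic variable, centred at `1`. -/
noncomputable def M (f : ℝ → ℂ) (s : ℂ) : ℂ := ∫ x : ℝ, f x * cexp ((s - 1) * x)

/-- Weil's quadratic form of `E/K` for functions supported in `[-a, a]`: the conductor, the archimedean places (Gamma factor
`((2π)^(-s) Γ(s))^[K : ℚ]`) and the powers `Nv^k ≤ exp (2 a)` (`k ≥ 1`) of the norms of the finite places. -/
noncomputable def W (X : Curve) (a : ℝ) (f : ℝ → ℂ) : ℝ :=
  1 / (2 * Real.pi) * (∫ x : ℝ, (Real.log X.A + X.deg * (2 * (digamma (1 + x * I)).re - 2 * Real.log (2 * Real.pi))) *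
    ‖M f (1 + x * I)‖ ^ 2) -
  2 * (∑ᶠ x ∈ {x : HeightOneSpectrum (𝓞 X.K) × ℕ | 1 ≤ x.2 ∧ (nrm x.1 : ℝ) ^ x.2 ≤ Real.exp (2 * a)},
    Real.log (nrm x.1) / (nrm x.1 : ℂ) ^ x.2 * frob X x.1 x.2 *
    ∫ y : ℝ, f (y + x.2 * Real.log (nrm x.1)) * (starRingEnd ℂ) (f y)).re

/-! ### Measures which solve the explicit formula -/

/-- The smooth functions with compact support in `(-a, a)`. -/
def Test (a : ℝ) (f : ℝ → ℂ) : Prop := ContDiff ℝ ((⊤ : ℕ∞) : WithTop ℕ∞) f ∧ tsupport f ⊆ Ioo (-a) a

/-- The measure `μ` on the real line satisfies the explicit formula for `f` up to the factors `x`, `y`; for `x = y = 1` exactly. -/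
def Comp (X : Curve) (a x y : ℝ) (μ : Measure ℝ) (f : ℝ → ℂ) : Prop :=
  Integrable (fun t : ℝ => ‖M f (1 + t * I)‖ ^ 2) μ ∧
    x * W X a f ≤ ∫ t : ℝ, ‖M f (1 + t * I)‖ ^ 2 ∂μ ∧ ∫ t : ℝ, ‖M f (1 + t * I)‖ ^ 2 ∂μ ≤ y * W X a f

/-- The number of the zeros of `Λ(E/K, s)` with ordinates in `(s, t)`, on the critical line or not, counted with multiplicity. -/
noncomputable def Zeros (X : Curve) (s t : ℝ) : ℝ :=
  ∑' ρ : {ρ : ℂ // X.Λ ρ = 0}, if s < (ρ : ℂ).im ∧ (ρ : ℂ).im < t then (analyticOrderNatAt X.Λ (ρ : ℂ) : ℝ) else 0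

/-- `μ (s, t)` is finite, and equal to the number of the zeros up to the factors `x`, `y` and the error `e`. -/
def Close (X : Curve) (x y e : ℝ) (μ : Measure ℝ) (s t : ℝ) : Prop := μ (Ioo s t) ≠ ⊤ ∧
  x * Zeros X s t - y * e ≤ (μ (Ioo s t)).toReal ∧ (μ (Ioo s t)).toReal ≤ y * (Zeros X s t + e)

/-- The conclusion: every measure on the real line which satisfies the explicit formula up to some factors `x ≥ 0`, `y > 0` for the functions in the class `C`
is close to the zeros, with the error `e`, on all intervals `(s, t)`, `|s|, |t| ≤ R`, whose end points have distance at least `δ` from the ordinates of the zeros. -/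
def Rigid (X : Curve) (a : ℝ) (C : (ℝ → ℂ) → Prop) (R δ e : ℝ) : Prop := ∀ (x y : ℝ) (μ : Measure ℝ), 0 ≤ x → 0 < y →
  (∀ f, C f → Comp X a x y μ f) → ∀ s t : ℝ, |s| ≤ R → |t| ≤ R → (∀ ρ : ℂ, X.Λ ρ = 0 → δ ≤ |s - ρ.im| ∧ δ ≤ |t - ρ.im|) → Close X x y e μ s t

/-! ### The proof -/

open Q240.OW Pool.Agent.TH839.UH Pool.Agent.Q286.TR
open Pool.Agent.H921R2.TatePole (nm)

lemma EL_eq (X : Curve) (s : ℂ) : EL (trace X) (good X) s = LSeries X.W s := by
  classical
  unfold LSeries EL
  refine tprod_congr fun v => ?_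
  unfold localFactor NF.gv Pool.Agent.H921R2.TatePole.nm trace good nrm
  congr 1
  ring

lemma kl (X : Curve) : KL (trace X) (good X) X.A X.Λ := by
  classical
  have h := X.hasseWeil
  refine ⟨fun v => trace_le v _, fun v => ?_, fun v => ?_, fun v => ?_,
    h.one_le, h.entire, h.order, h.fe, ?_⟩
  · show ‖(if (X.W v).Δ ∈ v.asIdeal then 0 else (Ideal.absNorm v.asIdeal : ℂ))‖ ≤
      ((Ideal.absNorm v.asIdeal : ℕ) : ℝ)
    split_ifs
    · rw [norm_zero]
      exact Nat.cast_nonneg _
    · rw [Complex.norm_natCast]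
  · show conj ((Ideal.absNorm v.asIdeal : ℂ) - ((_ : ℕ) : ℂ)) = _
    rw [map_sub, Complex.conj_natCast, Complex.conj_natCast]
    rfl
  · show conj (if (X.W v).Δ ∈ v.asIdeal then 0 else (Ideal.absNorm v.asIdeal : ℂ)) = good X v
    unfold good nrm
    split_ifs
    · rw [map_zero]
    · rw [Complex.conj_natCast]
  · obtain ⟨σ, hσ⟩ := h.eq
    refine ⟨σ, fun s hs => ?_⟩
    rw [hσ s hs, EL_eq]

lemma good_or (X : Curve) (v : HeightOneSpectrum (𝓞 X.K)) : good X v = 0 ∨ good X v = (nm v : ℂ) := by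
  classical
  unfold good
  split_ifs
  · exact Or.inl rfl
  · exact Or.inr rfl

lemma frob_eq (X : Curve) (v : HeightOneSpectrum (𝓞 X.K)) : ∀ k : ℕ, frob X v k = fr (trace X) (good X) v k ∧
    frob X v (k + 1) = fr (trace X) (good X) v (k + 1) := by
  intro k
  induction k with
  | zero => exact ⟨rfl, rfl⟩
  | succ k ih =>
    refine ⟨ih.2, ?_⟩
    show trace X v * frob X v (k + 1) - good X v * frob X v k =
      trace X v * fr (trace X) (good X) v (k + 1) - good X v * fr (trace X) (good X) v k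
    rw [ih.1, ih.2]

lemma outR (X : Curve) : Pool.Agent.Q97.RL.OutR (W X) X.Λ 1 1 (2 * (X.deg : ℝ)) X.A := by
  obtain ⟨L, hm, hQ, h1, h2, k, hk, h3⟩ := exK2 (kl X) (good_or X)
  have hW : ∀ (a : ℝ) (g : ℝ → ℂ), W X a g = Pool.Agent.Q286.TR.W L a g := fun a g => by
    rw [h1]
    unfold W WK
    congr 1
    refine congrArg (fun z : ℂ => 2 * z.re) ?_
    refine finsum_mem_congr rfl fun x _ => ?_
    rw [(frob_eq X x.1 x.2).1]
    rfl
  have H := Pool.Agent.Q97.RL.outR (L := L) (Λ := X.Λ) (V := W X) X.hasseWeil.entire (c := 1) (r := 1) (by norm_num) hk h3 (fun a _ f _ => hW a f)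
  have hd : (L.m : ℝ) = 2 * (X.deg : ℝ) := by
    rw [hm]
    unfold Curve.deg
    push_cast
    ring
  rw [hd, hQ] at H
  exact H

/-- **The theorem.** -/
theorem result (X : Curve) :
    (∀ u b : ℝ, 0 < u → u < Real.pi / 2 → 0 < b → b < 4 * Real.pi * X.deg * X.A ^ (-(1 / (2 * (X.deg : ℝ)))) * (Real.sin u - u * Real.cos u) →
      ∃ k K : ℝ, 0 < k ∧ ∀ a h : ℝ, K ≤ a → K * a ≤ h → h ≤ Real.exp (a / X.deg) →
        Rigid X a (Test a) (4 * Real.pi * Real.cos u * X.A ^ (-(1 / (2 * (X.deg : ℝ)))) * h) (Real.exp (-(k * h / Real.log h))) (Real.exp (-(b * h))) ∧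
        ∀ n : ℕ, K * a * h ≤ n →
          Rigid X a (Trig a n) (4 * Real.pi * Real.cos u * X.A ^ (-(1 / (2 * (X.deg : ℝ)))) * h) (Real.exp (-(k * h / Real.log h))) (Real.exp (-(b * h)))) ∧
    (∀ (a s t : ℝ) (n : ℕ), 0 < a → 0 ≤ s → Real.pi < a * (t - s) → n + 1 < a * t / Real.pi → ∀ (x y : ℝ) (μ : Measure ℝ),
      (∀ f, Trig a n f → Comp X a x y μ f) → ∀ l : ℝ, 0 ≤ l →
        ∃ μ' : Measure ℝ, (∀ f, Trig a n f → Comp X a x y μ' f) ∧ μ' (Ioo s t) = μ (Ioo s t) + ENNReal.ofReal l) ∧
    (RiemannHypothesis X ↔ ∀ (a : ℝ) (n : ℕ), 0 < a → ∃ μ : Measure ℝ, ∀ f, Trig a n f → Comp X a 1 1 μ f) ∧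
    (∀ n : ℝ → ℕ, Tendsto (fun a : ℝ => (n a : ℝ) / a) atTop atTop → (RiemannHypothesis X ↔
      ∀ A : ℝ, ∃ a : ℝ, A ≤ a ∧ ∃ (x y : ℝ) (μ : Measure ℝ), 0 ≤ x ∧ 0 < y ∧ ∀ f, Trig a (n a) f → Comp X a x y μ f)) ∧
    (RiemannHypothesis X ↔ ∀ A : ℝ, ∃ a : ℝ, A ≤ a ∧ ∃ (x y : ℝ) (μ : Measure ℝ), 0 ≤ x ∧ 0 < y ∧ ∀ f, Test a f → Comp X a x y μ f) := by
  have H := outR X
  refine ⟨fun u b hu0 hu1 hb0 hb => ?_, H.node, H.rh, H.rhn, H.rht⟩
  obtain ⟨k, K, hk, h⟩ := H.win u b hu0 hu1 hb0 (by convert hb using 2; ring)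
  refine ⟨k, K, hk, fun a h' ha hah hh => ?_⟩
  exact h a h' ha hah (by rwa [mul_div_mul_left _ _ two_ne_zero])

end Pool.Agent.Results.MP_fb225e_nt.RigidityOfTheExplicitFormula
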